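import Pool.Agent.K3h70.AC.Defs
import Pool.Agent.K3h33.GG.UB

/-!
# The relations between the permutations modulo homological equivalence

The counting argument is that of `Pool.Agent.K3h33.GG.t_UB'` (helper33).
-/

set_option autoImplicit false
set_option linter.unusedSectionVars false
set_option linter.unusedSimpArgs false
set_option backward.isDefEq.respectTransparency false
set_option backward.defeqAttrib.useBackward true

open CategoryTheory Limits MonoidalCategory
open Pool.Agent.Y112.SR Pool.Agent.Y112.KD Pool.Agent.R905 Pool.Agent.K3h8.SF Pool.Agent.K3h8.GG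
open Pool.Agent.K3h33.GG
open Functor.LaxMonoidal Functor.OplaxMonoidal

noncomputable section

namespace Pool.Agent.K3h70.AC

universe v u w

variable {C : Type u} [Category.{v} C] [Preadditive C] [Linear ℚ C] [MonoidalCategory C]
  [MonoidalPreadditive C] [MonoidalLinear ℚ C] [SymmetricCategory C]
  {K : Type w} [Field K] (R : SuperRealisation C K)

/-- At most `b ^ (2 n)` elements of the algebra of permutations have linearly independent
realisations. -/
theorem card_le {M : C} {d : ℚ} (hd : d = 1 ∨ d = -1) (hM : R.par M = (d : K) • 𝟙 _) (n : ℕ)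
    {ι : Type} [Fintype ι] (f : ι → End (tp M n)) (hf : ∀ i, f i ∈ permAlg M n)
    (h0 : ∀ g : ι → ℚ, R.H.map ((∑ i, g i • f i : End (tp M n)) : tp M n ⟶ tp M n) = 0 →
      ∀ i, g i = 0) : Fintype.card ι ≤ realDim R M ^ (2 * n) := by
  have hK := R_charZero R
  have hdd : d * d = 1 := by rcases hd with rfl | rfl <;> norm_num
  set c : ℕ := Module.finrank K (R.H.obj M) with hc
  let β := Module.finBasis K (R.H.obj M)
  have hβ : Submodule.span K (Set.range β) = ⊤ := β.span_eq
  have hspan := span_vec R (M := M) β hβ n
  have hfinW : Finite (Wd (Fin c) n) := finite_Wd (Fin c) n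
  let hW : Fintype (Wd (Fin c) n) := Fintype.ofFinite _
  have hm1 : ∀ i, ∃ m : Wd (Fin c) n → Wd (Fin c) n → ℚ, ∀ w,
      (R.H.map ((f i : End (tp M n)) : tp M n ⟶ tp M n)).hom (vec R β n w) =
      ∑ u, (m w u : K) • vec R β n u := fun i => exists_matrix R hdd hM β n (hf i)
  choose m hm using hm1
  have hli : LinearIndependent ℚ (fun i => (fun p : Wd (Fin c) n × Wd (Fin c) n => m i p.1 p.2)) := by
    rw [Fintype.linearIndependent_iff]
    intro g hg
    have h1 : ∀ w u, ∑ i, g i * m i w u = 0 := by
      intro w u
      have h2 := congrFun hg (w, u)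
      simpa [Finset.sum_apply] using h2
    have h2 : R.H.map ((∑ i, g i • f i : End (tp M n)) : tp M n ⟶ tp M n) =
        ∑ i, (g i : K) • R.H.map ((f i : End (tp M n)) : tp M n ⟶ tp M n) := by
      have e1 : ((∑ i, g i • f i : End (tp M n)) : tp M n ⟶ tp M n) =
          ∑ i, (g i • (f i : End (tp M n)) : tp M n ⟶ tp M n) := rfl
      rw [e1, Functor.map_sum]
      refine Finset.sum_congr rfl fun i _ => ?_
      rw [R_smul]
    have h3 : R.H.map ((∑ i, g i • f i : End (tp M n)) : tp M n ⟶ tp M n) = 0 := by
      apply ModuleCat.hom_ext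
      apply LinearMap.ext_on_range hspan
      intro w
      have e2 : (∑ i, (g i : K) • R.H.map ((f i : End (tp M n)) : tp M n ⟶ tp M n)).hom
          (vec R β n w) = ∑ i, (g i : K) •
            (R.H.map ((f i : End (tp M n)) : tp M n ⟶ tp M n)).hom (vec R β n w) := by
        rw [ModuleCat.hom_sum, LinearMap.sum_apply]
        rfl
      have e3 : ∀ i, (g i : K) •
          (R.H.map ((f i : End (tp M n)) : tp M n ⟶ tp M n)).hom (vec R β n w) =
          ∑ z, ((g i * m i w z : ℚ) : K) • vec R β n z := by
        intro i
        rw [hm, Finset.smul_sum]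
        refine Finset.sum_congr rfl fun z _ => ?_
        rw [smul_smul, Rat.cast_mul]
      rw [h2, e2, Finset.sum_congr rfl fun i _ => e3 i, Finset.sum_comm]
      rw [Finset.sum_eq_zero]
      · rfl
      · intro z _
        rw [← Finset.sum_smul, ← Rat.cast_sum, h1, Rat.cast_zero, zero_smul]
    exact h0 g h3
  have h1 := hli.fintype_card_le_finrank
  have h2 : Fintype.card (Wd (Fin c) n) = c ^ n := by
    rw [← Nat.card_eq_fintype_card, card_Wd, Nat.card_eq_fintype_card, Fintype.card_fin]
  rw [Module.finrank_fintype_fun_eq_card, Fintype.card_prod, h2] at h1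
  rw [two_mul, pow_add]
  exact h1

end Pool.Agent.K3h70.AC
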