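import Mathlib

/-!
# A dimension count
-/

set_option autoImplicit false

namespace Pool.Agent.K3h70.AC

theorem split_dim {E : Type*} [AddCommGroup E] [Module ℚ E] (P Z : Submodule ℚ E)
    [Module.Finite ℚ P] (A B : ℕ)
    (hA : ∀ (k : ℕ) (f : Fin k → E), (∀ i, f i ∈ Z) → LinearIndependent ℚ f → k ≤ A)
    (hB : ∀ (k : ℕ) (f : Fin k → E), (∀ i, f i ∈ P) →
      (∀ g : Fin k → ℚ, ∑ i, g i • f i ∈ Z → ∀ i, g i = 0) → k ≤ B) :
    Module.finrank ℚ P ≤ A + B := by
  obtain ⟨W, hW⟩ := (Z.comap P.subtype).exists_isCompl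
  rw [← Submodule.finrank_add_eq_of_isCompl hW]
  apply Nat.add_le_add
  · let e := Module.finBasis ℚ (Z.comap P.subtype)
    refine hA (Module.finrank ℚ (Z.comap P.subtype)) (fun i => ((e i : P) : E)) (fun i => (e i).2) ?_
    have h1 := e.linearIndependent
    have h2 : LinearIndependent ℚ (fun i => (e i : P)) :=
      h1.map' (Z.comap P.subtype).subtype (Submodule.ker_subtype _)
    exact h2.map' P.subtype (Submodule.ker_subtype _)
  · let e := Module.finBasis ℚ W
    refine hB (Module.finrank ℚ W) (fun i => ((e i : P) : E)) (fun i => (e i : P).2) ?_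
    intro g hg
    have h2 : (∑ i, g i • e i : W) = 0 := by
      have h3 : ((∑ i, g i • e i : W) : P) ∈ (Z.comap P.subtype) ⊓ W := by
        refine ⟨?_, (∑ i, g i • e i : W).2⟩
        change (((∑ i, g i • e i : W) : P) : E) ∈ Z
        have e1 : (((∑ i, g i • e i : W) : P) : E) = ∑ i, g i • ((e i : P) : E) := by
          simp
        rw [e1]
        exact hg
      rw [hW.inf_eq_bot, Submodule.mem_bot] at h3
      exact Subtype.ext h3
    exact Fintype.linearIndependent_iff.1 e.linearIndependent g h2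

end Pool.Agent.K3h70.AC
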