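import Pool.Agent.K3h70.AC.Count
import Pool.Agent.K3h70.AC.Lin

/-!
# The relations between the permutations modulo homological equivalence, II
-/

set_option autoImplicit false
set_option linter.unusedSectionVars false

open CategoryTheory Limits MonoidalCategory
open Pool.Agent.Y112.SR Pool.Agent.Y112.KD Pool.Agent.R905 Pool.Agent.K3h8.GG

noncomputable section

namespace Pool.Agent.K3h70.AC

universe v u w

variable {C : Type u} [Category.{v} C] [Preadditive C] [Linear ℚ C] [MonoidalCategory C]
  [MonoidalPreadditive C] [MonoidalLinear ℚ C] [SymmetricCategory C]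
  {K : Type w} [Field K] (R : SuperRealisation C K)

/-- The homologically trivial endomorphisms. -/
def triv (X : C) : Submodule ℚ (End X) where
  carrier := {f | R.H.map (f : X ⟶ X) = 0}
  zero_mem' := R.H.map_zero _ _
  add_mem' := by
    intro f g hf hg
    have e1 : R.H.map ((f : X ⟶ X) + (g : X ⟶ X)) = 0 := by
      rw [R.H.map_add, hf, hg, add_zero]
    exact e1
  smul_mem' := by
    intro c f hf
    have hK := R_charZero R
    have e1 : R.H.map (c • (f : X ⟶ X)) = 0 := by
      rw [R_smul, hf, smul_zero]
    exact e1

/-- The dimension of the algebra of permutations is bounded by the dimension of the space of the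
homologically trivial endomorphisms and by the realisation. -/
theorem permDim_le {M : C} {d : ℚ} (hd : d = 1 ∨ d = -1) (hM : R.par M = (d : K) • 𝟙 _) (n A : ℕ)
    (hA : TrivDimLE R M n A) : permDim M n ≤ A + realDim R M ^ (2 * n) := by
  unfold permDim
  by_cases hfin : Module.Finite ℚ (permAlg M n)
  swap
  · rw [Module.finrank_of_not_finite hfin]
    exact Nat.zero_le _
  have hfin' : Module.Finite ℚ (Subalgebra.toSubmodule (permAlg M n)) := hfin
  exact split_dim (Subalgebra.toSubmodule (permAlg M n)) (triv R (tp M n)) A (realDim R M ^ (2 * n))
    (fun k f hf hli => hA k f hf hli) (fun k f hf h0 => by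
      have h1 := card_le R hd hM n f hf h0
      rwa [Fintype.card_fin] at h1)

end Pool.Agent.K3h70.AC
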