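import Pool.Agent.K3h8.GG.Defs2

/-!
# Homologically trivial cycles on the powers of a variety with algebraic cohomology: definitions
-/

set_option autoImplicit false

open CategoryTheory Limits MonoidalCategory
open Pool.Agent.Y112.SR Pool.Agent.Y112.KD Pool.Agent.K3h8.GG

noncomputable section

namespace Pool.Agent.K3h70.AC

universe v u w

variable {C : Type u} [Category.{v} C] [Preadditive C] [Linear ℚ C] [MonoidalCategory C]
  [SymmetricCategory C] {K : Type w} [Field K]

/-- `𝒯` is a class of Tate objects: it contains the unit and is closed under tensor products, and the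
realisation is faithful on the morphisms between objects of `𝒯`. (For motives: the powers `𝕃 ^ i` of
the Lefschetz motive; the morphisms `𝕃 ^ i → 𝕃 ^ j` are the rational numbers for `i = j`, and zero for
`i ≠ j`.) -/
structure IsTate (R : SuperRealisation C K) (𝒯 : C → Prop) : Prop where
  unit : 𝒯 (𝟙_ C)
  tensor : ∀ S T : C, 𝒯 S → 𝒯 T → 𝒯 (S ⊗ T)
  faithful : ∀ S T : C, 𝒯 S → 𝒯 T → ∀ f : S ⟶ T, R.H.map f = 0 → f = 0

/-- `M` has algebraic cohomology: the identity of its realisation is the realisation of a sum of
morphisms `M ⟶ T ⟶ M` with Tate objects `T`. (For `M = h(X)`: the cohomology class of the diagonal of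
`X` is a sum of classes `[a] × [b]` with algebraic cycles `a`, `b`; equivalently, the rational
cohomology of `X` is spanned by the classes of algebraic cycles.) -/
def AlgebraicCohomology (R : SuperRealisation C K) (𝒯 : C → Prop) (M : C) : Prop :=
  ∃ (k : ℕ) (T : Fin k → C) (α : ∀ j, T j ⟶ M) (β : ∀ j, M ⟶ T j), (∀ j, 𝒯 (T j)) ∧
    R.H.map (∑ j, β j ≫ α j) = 𝟙 _

/-- All homologically trivial morphisms `S ⊗ M ^ m ⟶ T ⊗ M ^ n` vanish, for all Tate objects `S`, `T`
and all `m`, `n`. (For `M = h(X)`: all homologically trivial cycles on all powers of `X` are zero in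
the Chow groups with rational coefficients; the morphisms `𝕃 ^ i ⟶ M ^ n` are the cycles of
codimension `i` on `X ^ n`.) -/
def AllPowersInjective (R : SuperRealisation C K) (𝒯 : C → Prop) (M : C) : Prop :=
  ∀ (m n : ℕ) (S T : C), 𝒯 S → 𝒯 T → ∀ f : S ⊗ tp M m ⟶ T ⊗ tp M n, R.H.map f = 0 → f = 0

/-- The space of the homologically trivial endomorphisms of `M ^ n` has dimension at most `A`. (For
`M = h(X)`, `d = dim X`: this is the space of the homologically trivial cycles of codimension `d n` on
`X ^ n × X ^ n`, with rational coefficients.) -/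
def TrivDimLE (R : SuperRealisation C K) (M : C) (n A : ℕ) : Prop :=
  ∀ (k : ℕ) (f : Fin k → End (tp M n)), (∀ i, R.H.map (f i : tp M n ⟶ tp M n) = 0) →
    LinearIndependent ℚ f → k ≤ A

/-- The dimension of the space of the homologically trivial endomorphisms of `M ^ n` is at most
`D β ^ n` for infinitely many `n`, for some `β < (b + 2) ^ 2`, where `b` is the dimension of the
realisation of `M`. -/
def SlowGrowth (R : SuperRealisation C K) (M : C) : Prop :=
  ∃ β D : ℝ, 0 ≤ β ∧ β < ((realDim R M : ℝ) + 2) ^ 2 ∧
    ∃ᶠ n : ℕ in Filter.atTop, ∃ A : ℕ, (A : ℝ) ≤ D * β ^ n ∧ TrivDimLE R M n A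

end Pool.Agent.K3h70.AC
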