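import Pool.Agent.K3h70.AC.Sum
import Pool.Agent.K3h70.AC.Count2
import Pool.Agent.K3h8.GG.Final

/-!
# Homologically trivial cycles on the powers of a variety with algebraic cohomology: main theorem
-/

set_option autoImplicit false
set_option linter.unusedSectionVars false

open CategoryTheory Limits MonoidalCategory
open Pool.Agent.Y112.SR Pool.Agent.Y112.KD Pool.Agent.R905 Pool.Agent.K3h8.GG

noncomputable section

namespace Pool.Agent.K3h70.AC

universe v u w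

variable {C : Type u} [Category.{v} C] [Preadditive C] [Linear ℚ C] [MonoidalCategory C]
  [MonoidalPreadditive C] [MonoidalLinear ℚ C] [SymmetricCategory C] [RightRigidCategory C]
  [IsIdempotentComplete C] {K : Type w} [Field K] {R : SuperRealisation C K}

theorem kimura_of_slow (hU : UnitQ C) {M : C} (hM : R.par M = 𝟙 _) (h : SlowGrowth R M) :
    IsKimuraFinite M := by
  have hM' : R.par M = ((1 : ℚ) : K) • 𝟙 _ := by rw [hM, Rat.cast_one, one_smul]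
  obtain ⟨β, D, hβ0, hβ, hfr⟩ := h
  obtain ⟨-, -, -, -, h5⟩ := final R hU (Or.inl rfl) hM'
  set b : ℝ := (realDim R M : ℝ) with hb
  have hb0 : 0 ≤ b := Nat.cast_nonneg _
  refine h5 (max β (b ^ 2)) (|D| + 1) (le_max_of_le_left hβ0) (max_lt hβ (by nlinarith)) ?_
  refine hfr.mono ?_
  rintro n ⟨A, hA, hT⟩
  have h1 := permDim_le R (Or.inl rfl) hM' n A hT
  have h2 : (permDim M n : ℝ) ≤ A + b ^ (2 * n) := by
    have : (permDim M n : ℝ) ≤ ((A + realDim R M ^ (2 * n) : ℕ) : ℝ) := by exact_mod_cast h1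
    push_cast at this
    exact this
  have h3 : D * β ^ n ≤ |D| * (max β (b ^ 2)) ^ n := by
    have e1 : β ^ n ≤ (max β (b ^ 2)) ^ n := pow_le_pow_left₀ hβ0 (le_max_left _ _) n
    have e2 : (0 : ℝ) ≤ β ^ n := by positivity
    calc D * β ^ n ≤ |D| * β ^ n := mul_le_mul_of_nonneg_right (le_abs_self D) e2
      _ ≤ _ := mul_le_mul_of_nonneg_left e1 (abs_nonneg D)
  have h4 : b ^ (2 * n) ≤ (max β (b ^ 2)) ^ n := by
    rw [pow_mul]
    exact pow_le_pow_left₀ (by positivity) (le_max_right _ _) n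
  linarith

theorem lower (hU : UnitQ C) {M : C} (hM : R.par M = 𝟙 _) (h : ¬ IsKimuraFinite M) (n A : ℕ)
    (hA : TrivDimLE R M n A) : (realDim R M + 2) ^ (2 * n) ≤
      (A + realDim R M ^ (2 * n)) * Nat.multichoose ((realDim R M + 2) ^ 2) n := by
  have hM' : R.par M = ((1 : ℚ) : K) • 𝟙 _ := by rw [hM, Rat.cast_one, one_smul]
  obtain ⟨-, -, -, h4, -⟩ := final R hU (Or.inl rfl) hM'
  exact (h4 h n).trans (Nat.mul_le_mul_right _ (permDim_le R (Or.inl rfl) hM' n A hA))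

theorem tp_homNil (hU : UnitQ C) {M : C} (hM : R.par M = 𝟙 _) (h : IsKimuraFinite M) (n : ℕ) :
    HomNil R (tp M n) := by
  have hM' : R.par M = ((1 : ℚ) : K) • 𝟙 _ := by rw [hM, Rat.cast_one, one_smul]
  obtain ⟨N, hN⟩ := h.summand R hU (𝟙 M) (𝟙 M) (Category.comp_id _) (Or.inl rfl) hM'
  exact Pool.Agent.K3h90.SF.t_NOPH (C := C) K R hU M _ (Or.inr rfl) N hN n

theorem inj_of_kimura (hU : UnitQ C) {M : C} {𝒯 : C → Prop} (h𝒯 : IsTate R 𝒯)
    (hA : AlgebraicCohomology R 𝒯 M) (h : IsKimuraFinite M) : AllPowersInjective R 𝒯 M := by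
  have hS := split_of_homNil (h.homNil R hU) hA
  intro m n S T hS' hT' f hf
  exact Split.eq_zero R h𝒯.faithful (Split.tensor h𝒯.tensor (Split.of hS') (Split.tp h𝒯.unit h𝒯.tensor hS m))
    (Split.tensor h𝒯.tensor (Split.of hT') (Split.tp h𝒯.unit h𝒯.tensor hS n)) f hf

theorem triv_of_inj {M : C} {𝒯 : C → Prop} (h𝒯 : IsTate R 𝒯) (h : AllPowersInjective R 𝒯 M) (n : ℕ) :
    TrivDimLE R M n 0 := by
  intro k f hf hli
  by_contra hk
  have hk0 : 0 < k := by omega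
  apply hli.ne_zero ⟨0, hk0⟩
  have h1 := h n n (𝟙_ C) (𝟙_ C) h𝒯.unit h𝒯.unit
    ((λ_ (tp M n)).hom ≫ (f ⟨0, hk0⟩ : tp M n ⟶ tp M n) ≫ (λ_ (tp M n)).inv) (by
      rw [Functor.map_comp, Functor.map_comp, hf, zero_comp, comp_zero])
  have h2 : (f ⟨0, hk0⟩ : tp M n ⟶ tp M n) = (λ_ (tp M n)).inv ≫
      ((λ_ (tp M n)).hom ≫ (f ⟨0, hk0⟩ : tp M n ⟶ tp M n) ≫ (λ_ (tp M n)).inv) ≫ (λ_ (tp M n)).hom := by
    simp
  change (f ⟨0, hk0⟩ : tp M n ⟶ tp M n) = 0
  rw [h2, h1, zero_comp, comp_zero]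

theorem slow_of_inj {M : C} {𝒯 : C → Prop} (h𝒯 : IsTate R 𝒯) (h : AllPowersInjective R 𝒯 M) :
    SlowGrowth R M := by
  refine ⟨0, 0, le_rfl, by positivity, Filter.Frequently.of_forall fun n => ⟨0, by simp, ?_⟩⟩
  exact triv_of_inj h𝒯 h n

theorem rel_iff (hU : UnitQ C) {M : C} (hM : R.par M = 𝟙 _) : IsKimuraFinite M ↔
    ∃ n, n ≤ 2 * realDim R M + 3 ∧ permDim M n < n.factorial := by
  have hM' : R.par M = ((1 : ℚ) : K) • 𝟙 _ := by rw [hM, Rat.cast_one, one_smul]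
  obtain ⟨h1, h2, -, -, -⟩ := final R hU (Or.inl rfl) hM'
  exact ⟨fun h => ⟨realDim R M + 1, by omega, h1 h⟩, fun ⟨n, h3, h4⟩ => h2 n h3 h4⟩

end Pool.Agent.K3h70.AC
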