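import Pool.Agent.K3h70.AC.Defs
import Pool.Agent.R905.Div

/-!
# Sums of Tate objects
-/

set_option autoImplicit false
set_option linter.unusedSectionVars false

open CategoryTheory Limits MonoidalCategory
open Pool.Agent.Y112.SR Pool.Agent.Y112.KD Pool.Agent.R905 Pool.Agent.K3h8.GG

noncomputable section

namespace Pool.Agent.K3h70.AC

universe v u w

variable {C : Type u} [Category.{v} C] [Preadditive C] [Linear ℚ C] [MonoidalCategory C]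
  [MonoidalPreadditive C] [MonoidalLinear ℚ C] [SymmetricCategory C] {K : Type w} [Field K]
  (R : SuperRealisation C K)

/-- The identity of `X` is a sum of morphisms which factor through Tate objects. -/
def Split (𝒯 : C → Prop) (X : C) : Prop :=
  ∃ (ι : Type) (_ : Fintype ι) (T : ι → C) (α : ∀ j, T j ⟶ X) (β : ∀ j, X ⟶ T j), (∀ j, 𝒯 (T j)) ∧
    ∑ j, β j ≫ α j = 𝟙 X

lemma Split.of {𝒯 : C → Prop} {T : C} (h : 𝒯 T) : Split 𝒯 T :=
  ⟨Unit, inferInstance, fun _ => T, fun _ => 𝟙 T, fun _ => 𝟙 T, fun _ => h, by simp⟩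

lemma Split.tensor {𝒯 : C → Prop} (h𝒯 : ∀ S T : C, 𝒯 S → 𝒯 T → 𝒯 (S ⊗ T)) {X Y : C} (hX : Split 𝒯 X)
    (hY : Split 𝒯 Y) : Split 𝒯 (X ⊗ Y) := by
  obtain ⟨ι, _, T, α, β, hT, h1⟩ := hX
  obtain ⟨κ, _, T', α', β', hT', h2⟩ := hY
  refine ⟨ι × κ, inferInstance, fun j => T j.1 ⊗ T' j.2, fun j => α j.1 ⊗ₘ α' j.2,
    fun j => β j.1 ⊗ₘ β' j.2, fun j => h𝒯 _ _ (hT _) (hT' _), ?_⟩
  rw [← id_tensorHom_id, ← h1, ← h2, sum_tensor, Fintype.sum_prod_type]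
  refine Finset.sum_congr rfl fun i _ => ?_
  rw [tensor_sum]
  refine Finset.sum_congr rfl fun j _ => ?_
  rw [MonoidalCategory.tensorHom_comp_tensorHom]

lemma Split.tp {𝒯 : C → Prop} (h0 : 𝒯 (𝟙_ C)) (h𝒯 : ∀ S T : C, 𝒯 S → 𝒯 T → 𝒯 (S ⊗ T)) {M : C}
    (hM : Split 𝒯 M) (n : ℕ) : Split 𝒯 (Pool.Agent.Y112.KD.tp M n) := by
  induction n with
  | zero => exact Split.of h0
  | succ n ih => exact Split.tensor h𝒯 ih hM

lemma Split.eq_zero {𝒯 : C → Prop} (hf : ∀ S T : C, 𝒯 S → 𝒯 T → ∀ f : S ⟶ T, R.H.map f = 0 → f = 0)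
    {X Y : C} (hX : Split 𝒯 X) (hY : Split 𝒯 Y) (f : X ⟶ Y) (h : R.H.map f = 0) : f = 0 := by
  obtain ⟨ι, _, T, α, β, hT, h1⟩ := hX
  obtain ⟨κ, _, T', α', β', hT', h2⟩ := hY
  have h3 : f = (∑ j, β j ≫ α j) ≫ f ≫ (∑ k, β' k ≫ α' k) := by
    rw [h1, h2, Category.id_comp, Category.comp_id]
  rw [h3, Preadditive.sum_comp]
  refine Finset.sum_eq_zero fun j _ => ?_
  rw [Preadditive.comp_sum, Preadditive.comp_sum]
  refine Finset.sum_eq_zero fun k _ => ?_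
  have h4 : α j ≫ f ≫ β' k = 0 := by
    apply hf _ _ (hT j) (hT' k)
    rw [Functor.map_comp, Functor.map_comp, h, zero_comp, comp_zero]
  calc (β j ≫ α j) ≫ f ≫ β' k ≫ α' k = β j ≫ (α j ≫ f ≫ β' k) ≫ α' k := by simp only [Category.assoc]
    _ = 0 := by rw [h4, zero_comp, comp_zero]

variable {R}

lemma split_of_homNil {𝒯 : C → Prop} {M : C} (h : HomNil R M) (hM : AlgebraicCohomology R 𝒯 M) : Split 𝒯 M := by
  obtain ⟨k, T, α, β, hT, h1⟩ := hM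
  obtain ⟨u, hu⟩ := h.isUnit _ h1
  refine ⟨Fin k, inferInstance, T, fun j => α j ≫ u, β, hT, ?_⟩
  rw [Preadditive.sum_comp] at hu
  rw [← hu]
  exact Finset.sum_congr rfl fun j _ => by rw [Category.assoc]

end Pool.Agent.K3h70.AC
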